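import Pool.Agent.Q271.LiouvilleInj

set_option autoImplicit false

/-! # MP_7a8bd8_nt: matrices kept Liouville by injective continuous maps -/

namespace Pool.Agent.Results.MP_7a8bd8_nt.PositiveIffTwoLe

open Q271 Q271.LiouvilleInj

/-- **Full answer to Q1.** For `m, n ≥ 1`, the set `E(U, (f k))` has positive Hausdorff dimension
for every nonempty open `U` and every sequence of injective continuous maps `f k` on `U` if and
only if `n ≥ 2`; and for `n ≥ 2` its dimension is always at least `1`. -/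
theorem result (m n : ℕ) (hm : 1 ≤ m) (hn : 1 ≤ n) :
    ((∀ U : Set (Fin m → Fin n → ℝ), IsOpen U → U.Nonempty →
        ∀ f : ℕ → (Fin m → Fin n → ℝ) → (Fin m → Fin n → ℝ),
          (∀ k, ContinuousOn (f k) U ∧ Set.InjOn (f k) U) → 0 < dimH (E U f)) ↔ 2 ≤ n) ∧
    (2 ≤ n → ∀ U : Set (Fin m → Fin n → ℝ), IsOpen U → U.Nonempty →
        ∀ f : ℕ → (Fin m → Fin n → ℝ) → (Fin m → Fin n → ℝ),
          (∀ k, ContinuousOn (f k) U ∧ Set.InjOn (f k) U) → 1 ≤ dimH (E U f)) := by
  refine ⟨⟨fun h => ?_, fun h2 U hU hne f hf => ?_⟩, fun h2 U hU hne f hf => ?_⟩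
  · by_contra hlt
    have hn1 : n = 1 := by omega
    subst hn1
    have h1 := h Set.univ isOpen_univ Set.univ_nonempty (fun _ A => A)
      (fun k => ⟨continuousOn_id, Set.injOn_id _⟩)
    rw [dimH_E_column m] at h1
    exact lt_irrefl _ h1
  · exact lt_of_lt_of_le one_pos (one_le_dimH hm h2 U hU hne f hf)
  · exact one_le_dimH hm h2 U hU hne f hf

end Pool.Agent.Results.MP_7a8bd8_nt.PositiveIffTwoLe
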